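import Pool.Agent.Y142.SU.Stm

/-! # Project Y142-SU, task COEF: the algebra of coefficients -/

set_option autoImplicit false

open Matrix

namespace Pool.Agent.Y154.SU

section gen

variable {E K : Type*} [Field E] [Algebra ℚ E] [FiniteDimensional ℚ E] [Field K] [CharZero K]
  {N n : ℕ} (ε : E →+* Matrix (Fin N) (Fin N) K)

omit [Algebra ℚ E] [FiniteDimensional ℚ E] [CharZero K] in
theorem eps_span (A : Matrix (Fin N) (Fin N) K) (hA : A ∈ Algebra.adjoin K (Set.range ε)) :
    A ∈ Submodule.span K (Set.range ε) := by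
  have h1 : ((Submonoid.closure (Set.range ε) : Submonoid (Matrix (Fin N) (Fin N) K)) :
      Set (Matrix (Fin N) (Fin N) K)) = Set.range ε := by
    have h2 := Submonoid.closure_eq (MonoidHom.mrange (ε : E →* Matrix (Fin N) (Fin N) K))
    have h3 : ((MonoidHom.mrange (ε : E →* Matrix (Fin N) (Fin N) K) :
        Submonoid (Matrix (Fin N) (Fin N) K)) : Set (Matrix (Fin N) (Fin N) K)) =
        Set.range ε := MonoidHom.coe_mrange _
    rw [h3] at h2
    rw [h2, h3]
  rw [← Subalgebra.mem_toSubmodule, Algebra.adjoin_eq_span, h1] at hA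
  exact hA

omit [Algebra ℚ E] [FiniteDimensional ℚ E] [CharZero K] in
theorem eps_comm (A B : Matrix (Fin N) (Fin N) K) (hA : A ∈ Submodule.span K (Set.range ε))
    (hB : B ∈ Submodule.span K (Set.range ε)) : A * B = B * A := by
  induction hA using Submodule.span_induction with
  | mem x hx =>
    obtain ⟨a, rfl⟩ := hx
    induction hB using Submodule.span_induction with
    | mem y hy =>
      obtain ⟨b, rfl⟩ := hy
      rw [← map_mul, mul_comm, map_mul]
    | zero => rw [mul_zero, zero_mul]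
    | add x y _ _ hx hy => rw [mul_add, add_mul, hx, hy]
    | smul r x _ hx => rw [mul_smul_comm, smul_mul_assoc, hx]
  | zero => rw [mul_zero, zero_mul]
  | add x y _ _ hx hy => rw [mul_add, add_mul, hx, hy]
  | smul r x _ hx => rw [mul_smul_comm, smul_mul_assoc, hx]

omit [CharZero K] in
theorem eps_coord (a : E) : ε a =
    ∑ i, (((Module.finBasis ℚ E).repr a i : ℚ) : K) • ε (Module.finBasis ℚ E i) := by
  have h1 := congrArg ε ((Module.finBasis ℚ E).sum_repr a)
  rw [← h1, map_sum]
  refine Finset.sum_congr rfl fun i _ => ?_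
  have h2 := map_ratCast_smul ε ℚ K ((Module.finBasis ℚ E).repr a i) (Module.finBasis ℚ E i)
  rwa [Rat.cast_id] at h2

omit [CharZero K] in
theorem eps_exists (A : Matrix (Fin N) (Fin N) K) (hA : A ∈ Submodule.span K (Set.range ε)) :
    ∃ c : Fin (Module.finrank ℚ E) → K, A = ∑ i, c i • ε (Module.finBasis ℚ E i) := by
  have h1 : Submodule.span K (Set.range ε) ≤
      Submodule.span K (Set.range fun i => ε (Module.finBasis ℚ E i)) := by
    rw [Submodule.span_le]
    rintro _ ⟨a, rfl⟩
    rw [SetLike.mem_coe, eps_coord ε a]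
    exact Submodule.sum_mem _ fun i _ => Submodule.smul_mem _ _ (Submodule.subset_span ⟨i, rfl⟩)
  obtain ⟨c, hc⟩ := (Submodule.mem_span_range_iff_exists_fun K).1 (h1 hA)
  exact ⟨c, hc.symm⟩

theorem eps_zero (hn : 0 < n)
    (h : ∀ a : E, (ε a).trace = (n : K) * ((Algebra.trace ℚ E a : ℚ) : K))
    (g : Fin (Module.finrank ℚ E) → K)
    (hg : ∀ j, ((∑ i, g i • ε (Module.finBasis ℚ E i)) * ε (Module.finBasis ℚ E j)).trace = 0) :
    g = 0 := by
  classical
  set b := Module.finBasis ℚ E with hb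
  have hdet : (Algebra.traceMatrix ℚ b).det ≠ 0 := by
    rw [← Algebra.discr_def]
    exact Algebra.discr_not_zero_of_basis ℚ b
  have hdet' : ((Algebra.traceMatrix ℚ b).map (Rat.castHom K)).det ≠ 0 := by
    have e := RingHom.map_det (Rat.castHom K) (Algebra.traceMatrix ℚ b)
    have e2 : (Rat.castHom K).mapMatrix (Algebra.traceMatrix ℚ b) =
        (Algebra.traceMatrix ℚ b).map (Rat.castHom K) := rfl
    rw [← e2, ← e]
    exact (map_ne_zero _).2 hdet
  have hn' : (n : K) ≠ 0 := Nat.cast_ne_zero.2 hn.ne'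
  have h1 : ((Algebra.traceMatrix ℚ b).map (Rat.castHom K)) *ᵥ g = 0 := by
    funext j
    have h2 := hg j
    rw [Finset.sum_mul, Matrix.trace_sum] at h2
    have h3 : ∀ i, (g i • ε (b i) * ε (b j)).trace =
        (n : K) * (((Algebra.traceMatrix ℚ b).map (Rat.castHom K)) j i * g i) := by
      intro i
      rw [smul_mul_assoc, Matrix.trace_smul, ← map_mul, h, Matrix.map_apply,
        Algebra.traceMatrix_apply, Algebra.traceForm_apply, mul_comm (b j) (b i), smul_eq_mul]
      show g i * ((n : K) * ((Algebra.trace ℚ E (b i * b j) : ℚ) : K)) =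
        (n : K) * (((Algebra.trace ℚ E (b i * b j) : ℚ) : K) * g i)
      ring
    rw [Finset.sum_congr rfl fun i _ => h3 i, ← Finset.mul_sum] at h2
    rcases mul_eq_zero.1 h2 with h4 | h4
    · exact absurd h4 hn'
    · rw [Matrix.mulVec, dotProduct]
      exact h4
  exact Matrix.eq_zero_of_mulVec_eq_zero hdet' h1

theorem eps_red (hn : 0 < n)
    (h : ∀ a : E, (ε a).trace = (n : K) * ((Algebra.trace ℚ E a : ℚ) : K))
    (A : Matrix (Fin N) (Fin N) K) (hA : A ∈ Submodule.span K (Set.range ε))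
    (hA' : IsNilpotent A) : A = 0 := by
  obtain ⟨c, hc⟩ := eps_exists ε A hA
  have h1 := eps_zero ε hn h c (fun j => by
    rw [← hc]
    have h2 : IsNilpotent (A * ε (Module.finBasis ℚ E j)) :=
      Commute.isNilpotent_mul_right (eps_comm ε _ _ hA (Submodule.subset_span ⟨_, rfl⟩)) hA'
    exact (Matrix.isNilpotent_trace_of_isNilpotent h2).eq_zero)
  rw [hc, h1]
  simp

theorem eps_trace (hn : 0 < n)
    (h : ∀ a : E, (ε a).trace = (n : K) * ((Algebra.trace ℚ E a : ℚ) : K))
    (A : Algebra.adjoin K (Set.range ε)) : (A : Matrix (Fin N) (Fin N) K).trace =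
    (n : K) * LinearMap.trace K (Algebra.adjoin K (Set.range ε)) (LinearMap.mulLeft K A) := by
  classical
  set b := Module.finBasis ℚ E with hb
  let v : Fin (Module.finrank ℚ E) → Algebra.adjoin K (Set.range ε) :=
    fun i => ⟨ε (b i), Algebra.subset_adjoin ⟨_, rfl⟩⟩
  have hco : ∀ g : Fin (Module.finrank ℚ E) → K,
      ((∑ i, g i • v i : Algebra.adjoin K (Set.range ε)) : Matrix (Fin N) (Fin N) K) =
      ∑ i, g i • ε (b i) := by
    intro g
    rw [AddSubmonoidClass.coe_finsetSum]
    rfl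
  have hli : LinearIndependent K v := by
    rw [Fintype.linearIndependent_iff]
    intro g hg i
    have h1 : ∑ i, g i • ε (b i) = 0 := by
      rw [← hco, hg]
      rfl
    have h2 := eps_zero ε hn h g (fun j => by rw [← hb, h1, zero_mul, Matrix.trace_zero])
    rw [h2]
    rfl
  have hsp : ⊤ ≤ Submodule.span K (Set.range v) := by
    intro A _
    obtain ⟨c, hc⟩ := eps_exists ε A (eps_span ε A A.2)
    have h1 : A = ∑ i, c i • v i := Subtype.ext (by rw [hco]; exact hc)
    rw [h1]
    exact Submodule.sum_mem _ fun i _ => Submodule.smul_mem _ _ (Submodule.subset_span ⟨i, rfl⟩)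
  let B := Module.Basis.mk hli hsp
  have hB : ∀ i, B i = v i := fun i => by
    show Module.Basis.mk hli hsp i = v i
    rw [Module.Basis.mk_apply]
  have hr : ∀ (a : E) (i : Fin (Module.finrank ℚ E)),
      B.repr ⟨ε a, Algebra.subset_adjoin ⟨a, rfl⟩⟩ i = ((b.repr a i : ℚ) : K) := by
    intro a i
    have h1 : (⟨ε a, Algebra.subset_adjoin ⟨a, rfl⟩⟩ : Algebra.adjoin K (Set.range ε)) =
        ∑ i, ((b.repr a i : ℚ) : K) • B i := by
      simp only [hB]
      exact Subtype.ext (by rw [hco]; exact eps_coord ε a)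
    rw [h1, B.repr_sum_self]
  have ht : ∀ a : E, LinearMap.trace K (Algebra.adjoin K (Set.range ε))
      (LinearMap.mulLeft K ⟨ε a, Algebra.subset_adjoin ⟨a, rfl⟩⟩) =
        ((Algebra.trace ℚ E a : ℚ) : K) := by
    intro a
    rw [LinearMap.trace_eq_matrix_trace K B, Matrix.trace, Algebra.trace_eq_matrix_trace b,
      Matrix.trace, Rat.cast_sum]
    refine Finset.sum_congr rfl fun i _ => ?_
    rw [Matrix.diag_apply, Matrix.diag_apply, LinearMap.toMatrix_apply,
      Algebra.leftMulMatrix_eq_repr_mul, LinearMap.mulLeft_apply, hB]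
    have h2 : (⟨ε a, Algebra.subset_adjoin ⟨a, rfl⟩⟩ : Algebra.adjoin K (Set.range ε)) * v i =
        ⟨ε (a * b i), Algebra.subset_adjoin ⟨_, rfl⟩⟩ := Subtype.ext (map_mul ε a (b i)).symm
    rw [h2, hr]
  have hL : (Matrix.traceLinearMap (Fin N) K K) ∘ₗ
      (Algebra.adjoin K (Set.range ε)).val.toLinearMap =
      (n : K) • ((LinearMap.trace K (Algebra.adjoin K (Set.range ε))) ∘ₗ
        (LinearMap.mul K (Algebra.adjoin K (Set.range ε)))) := by
    refine B.ext fun i => ?_
    rw [hB]
    show (ε (b i)).trace = (n : K) * LinearMap.trace K (Algebra.adjoin K (Set.range ε))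
      (LinearMap.mulLeft K ⟨ε (b i), Algebra.subset_adjoin ⟨_, rfl⟩⟩)
    rw [ht, h]
  exact LinearMap.congr_fun hL A

end gen

theorem t_COEF : Pool.Agent.Y142.SU.S_COEF := by
  intro ℓ _ N n E hE hn ε h
  refine ⟨fun A hA B hB => eps_comm ε A B (eps_span ε A hA) (eps_span ε B hB),
    fun A hA hA' => eps_red ε hn h A (eps_span ε A hA) hA', fun A hA => eps_span ε A hA,
    fun A => eps_trace ε hn h A⟩

end Pool.Agent.Y154.SU
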